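import Mathlib

/-!
# MP_6d1e65_an: `τ_M` is the strongest triangle function universal for simple spaces

Let `τ` be a triangle function which is universal for all simple spaces. For `0 < u < x < ∞`,
`v = x - u` and `H(z) = max (F(u z)) (G(v z))` the simple space of three points of the line with
distances `u`, `v`, `u + v` and the distribution function `H` gives
`τ(F,G)(x) ≤ τ(H(·/u), H(·/v))(x) ≤ H(x/(u+v)) = max (F u) (G v)`. Because `F(u)` increases and
`G(x - u)` decreases with `u` and both are left-continuous, the infimum of these maxima is at most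
the supremum `τ_M(F,G)(x)` of the minima `min (F u) (G v)`, `u + v = x`.
-/

set_option autoImplicit false

open scoped ENNReal
open Filter Topology Set

namespace Pool.Agent.Results.MP_6d1e65_an.StrongestTriangleFunction

/-- `Δ⁺`: the distance distribution functions: nondecreasing functions on `[0, ∞]`, left-continuous
on `(0, ∞)`, with `F(0) = 0` and `F(∞) = 1` (so the values are in `[0, 1]`). -/
structure DDF where
  toFun : ℝ≥0∞ → ℝ
  mono : Monotone toFun
  leftCont : ∀ x, 0 < x → x < ∞ → ContinuousWithinAt toFun (Iic x) x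
  zero : toFun 0 = 0
  top : toFun ∞ = 1

instance : CoeFun DDF fun _ => ℝ≥0∞ → ℝ := ⟨DDF.toFun⟩

/-- the pointwise order of `Δ⁺` -/
instance : LE DDF := ⟨fun F G => ∀ x, F x ≤ G x⟩

theorem DDF.nonneg (F : DDF) (x : ℝ≥0∞) : 0 ≤ F x := by
  rw [← F.zero]; exact F.mono zero_le

theorem DDF.le_one (F : DDF) (x : ℝ≥0∞) : F x ≤ 1 := by
  rw [← F.top]; exact F.mono le_top

theorem DDF.ext {F G : DDF} (h : ∀ x, F x = G x) : F = G := by
  cases F; cases G
  congr
  exact funext h

/-- `ε_a`, `0 ≤ a ≤ ∞`: `0` on `[0, a]` and `1` on `(a, ∞]` for `a < ∞`; `0` on `[0, ∞)` and `1` at `∞`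
for `a = ∞`. -/
noncomputable def eps (a : ℝ≥0∞) : DDF where
  toFun x := if x = ∞ then 1 else if x ≤ a then 0 else 1
  mono := by
    intro x y hxy
    by_cases hy : y = ∞
    · simp only [hy, if_true]
      split_ifs <;> norm_num
    · have hx : x ≠ ∞ := fun h => hy (top_le_iff.1 (h ▸ hxy))
      simp only [hx, hy, if_false]
      by_cases h1 : y ≤ a
      · simp [h1, hxy.trans h1]
      · simp only [h1, if_false]
        split_ifs <;> norm_num
  leftCont := by
    intro x hx0 hx
    by_cases hxa : x ≤ a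
    · refine (continuousWithinAt_const (b := (0 : ℝ))).congr (fun y hy => ?_) ?_
      · have hy' : y ≠ ∞ := (lt_of_le_of_lt hy hx).ne
        simp [hy', le_trans hy hxa]
      · simp [hx.ne, hxa]
    · push Not at hxa
      have h1 : ∀ᶠ y in 𝓝[Iic x] x, (if y = ∞ then (1 : ℝ) else if y ≤ a then 0 else 1) = 1 := by
        filter_upwards [mem_nhdsWithin_of_mem_nhds (Ioi_mem_nhds hxa)] with y hy
        split_ifs with h1 h2
        · rfl
        · exact absurd h2 (not_le.2 hy)
        · rfl
      refine (continuousWithinAt_const (b := (1 : ℝ))).congr_of_eventuallyEq h1 ?_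
      simp [not_le.2 hxa]
  zero := by simp
  top := by simp

/-- The data of a triangle function: commutative, associative, nondecreasing in each argument, with
identity `ε_0`. -/
structure IsTriangleFunction (τ : DDF → DDF → DDF) : Prop where
  comm : ∀ F G, τ F G = τ G F
  assoc : ∀ F G H, τ (τ F G) H = τ F (τ G H)
  mono : ∀ F F' G G', F ≤ F' → G ≤ G' → τ F G ≤ τ F' G'
  id : ∀ F, τ (eps 0) F = F

/-- `τ_M(F, G)(x)`: the supremum of `min (F u) (G v)` over all `u + v = x`. -/
noncomputable def tauM (F G : DDF) (x : ℝ≥0∞) : ℝ :=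
  sSup {y | ∃ u v : ℝ≥0∞, u + v = x ∧ y = min (F u) (G v)}

/-- PSM spaces. -/
structure IsPSM {S : Type} (𝓕 : S → S → DDF) : Prop where
  self : ∀ p, 𝓕 p p = eps 0
  ne : ∀ p q, p ≠ q → 𝓕 p q ≠ eps 0
  symm : ∀ p q, 𝓕 p q = 𝓕 q p

/-- PM spaces under `τ`. -/
structure IsPM {S : Type} (τ : DDF → DDF → DDF) (𝓕 : S → S → DDF) : Prop extends IsPSM 𝓕 where
  triangle : ∀ p q r, τ (𝓕 p q) (𝓕 q r) ≤ 𝓕 p r

/-- Metrics; the distances may take the value `∞`. -/
structure IsMetric {S : Type} (d : S → S → ℝ≥0∞) : Prop where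
  eq_zero : ∀ p q, d p q = 0 ↔ p = q
  symm : ∀ p q, d p q = d q p
  triangle : ∀ p q r, d p r ≤ d p q + d q r

/-- `x ↦ G(x / δ)`, with `G(x / 0) = 1` for `x > 0`, `G(0 / 0) = 0` and value `1` at `x = ∞`. -/
noncomputable def scale (G : DDF) (δ : ℝ≥0∞) : DDF where
  toFun x := if x = ∞ then 1 else G (x / δ)
  mono := by
    intro x y hxy
    by_cases hy : y = ∞
    · simp only [hy, if_true]
      split_ifs
      · exact le_rfl
      · exact G.le_one _
    · have hx : x ≠ ∞ := fun h => hy (top_le_iff.1 (h ▸ hxy))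
      simp only [hx, hy, if_false]
      exact G.mono (ENNReal.div_le_div_right hxy _)
  leftCont := by
    intro x hx0 hx
    rcases eq_or_ne δ 0 with rfl | hδ0
    · have h1 : ∀ᶠ y in 𝓝[Iic x] x, (if y = ∞ then (1 : ℝ) else G (y / 0)) = 1 := by
        filter_upwards [mem_nhdsWithin_of_mem_nhds (Ioi_mem_nhds hx0)] with y hy
        split_ifs with h1
        · rfl
        · rw [ENNReal.div_zero (ne_of_gt hy), G.top]
      refine (continuousWithinAt_const (b := (1 : ℝ))).congr_of_eventuallyEq h1 ?_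
      rw [if_neg hx.ne, ENNReal.div_zero hx0.ne', G.top]
    rcases eq_or_ne δ ∞ with rfl | hδ
    · refine (continuousWithinAt_const (b := (0 : ℝ))).congr (fun y hy => ?_) ?_
      · have hy' : y ≠ ∞ := (lt_of_le_of_lt hy hx).ne
        simp [hy', ENNReal.div_top, G.zero]
      · simp [hx.ne, ENNReal.div_top, G.zero]
    · have h1 : ContinuousWithinAt (fun y => G (y / δ)) (Iic x) x := by
        have h2 : ContinuousWithinAt (fun y : ℝ≥0∞ => y / δ) (Iic x) x :=
          (ENNReal.continuous_div_const δ hδ0).continuousWithinAt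
        refine ContinuousWithinAt.comp (t := Iic (x / δ)) (G.leftCont (x / δ)
          (ENNReal.div_pos hx0.ne' hδ) (ENNReal.div_lt_top hx.ne hδ0)) h2 ?_
        intro y hy
        exact ENNReal.div_le_div_right hy _
      refine h1.congr (fun y hy => ?_) ?_
      · have hy' : y ≠ ∞ := (lt_of_le_of_lt hy hx).ne
        simp [hy']
      · simp [hx.ne]
  zero := by simp [G.zero]
  top := by simp

/-- The simple space `(S, d, G)`: `F_{pq}(x) = G(x / d(p, q))`. -/
noncomputable def simple {S : Type} (d : S → S → ℝ≥0∞) (G : DDF) (p q : S) : DDF := scale G (d p q)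

/-- `τ` is universal for the class of all simple spaces: every simple space is a PM space under
`τ`. -/
def Universal (τ : DDF → DDF → DDF) : Prop :=
  ∀ (S : Type) (d : S → S → ℝ≥0∞) (G : DDF), IsMetric d → G ≠ eps 0 → G ≠ eps ∞ →
    IsPM τ (simple d G)

/-- `z ↦ max (F(a z)) (G(b z))` -/
noncomputable def maxScale (F G : DDF) (a b : ℝ≥0∞) (ha : a ≠ 0) (ha' : a ≠ ∞) (hb : b ≠ 0)
    (hb' : b ≠ ∞) : DDF where
  toFun z := max (F (a * z)) (G (b * z))
  mono := fun x y hxy => max_le_max (F.mono (mul_le_mul_right hxy _))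
    (G.mono (mul_le_mul_right hxy _))
  leftCont := by
    intro x hx0 hx
    have key : ∀ (F : DDF) (a : ℝ≥0∞), a ≠ 0 → a ≠ ∞ →
        ContinuousWithinAt (fun y => F (a * y)) (Iic x) x := by
      intro F a ha ha'
      have h2 : ContinuousWithinAt (fun y : ℝ≥0∞ => a * y) (Iic x) x :=
        (ENNReal.continuous_const_mul ha').continuousWithinAt
      refine ContinuousWithinAt.comp (t := Iic (a * x)) (F.leftCont (a * x)
        (pos_iff_ne_zero.2 (mul_ne_zero ha hx0.ne')) (ENNReal.mul_lt_top ha'.lt_top hx)) h2 ?_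
      intro y hy
      exact mul_le_mul_right (Set.mem_Iic.1 hy) _
    exact (key F a ha ha').max (key G b hb hb')
  zero := by simp [F.zero, G.zero]
  top := by simp [ENNReal.mul_top ha, ENNReal.mul_top hb, F.top, G.top]

theorem le_left {τ : DDF → DDF → DDF} (hτ : IsTriangleFunction τ) (F G : DDF) : τ F G ≤ F := by
  have h1 : G ≤ eps 0 := by
    intro x
    by_cases hx : x = 0
    · rw [hx, G.zero, (eps 0).zero]
    · have : (eps 0) x = 1 := by
        simp only [eps]
        split_ifs with h1 h2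
        · rfl
        · exact absurd (le_antisymm h2 zero_le) hx
        · rfl
      rw [this]
      exact G.le_one _
  have h2 := hτ.mono F F G (eps 0) (fun _ => le_rfl) h1
  rw [hτ.comm F (eps 0), hτ.id] at h2
  exact h2

/-- the inequality from one simple space -/
theorem le_max {τ : DDF → DDF → DDF} (hτ : IsTriangleFunction τ) (hU : Universal τ) (F G : DDF)
    {u v : ℝ≥0∞} (hu : u ≠ 0) (hu' : u ≠ ∞) (hv : v ≠ 0) (hv' : v ≠ ∞) :
    τ F G (u + v) ≤ max (F u) (G v) := by
  obtain ⟨H, hH⟩ : ∃ H, H = maxScale F G u v hu hu' hv hv' := ⟨_, rfl⟩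
  have hHz : ∀ z, H z = max (F (u * z)) (G (v * z)) := fun z => by rw [hH]; rfl
  by_cases h0 : H = eps 0
  · have h1 : H 1 = 1 := by
      rw [h0]
      simp [eps]
    rw [hHz, mul_one, mul_one] at h1
    rw [h1]
    exact DDF.le_one _ _
  by_cases hi : H = eps ∞
  · have h1 : H ((u + v) / u) = 0 := by
      rw [hi]
      have h2 : (u + v) / u ≠ ∞ := (ENNReal.div_lt_top (ENNReal.add_ne_top.2 ⟨hu', hv'⟩) hu).ne
      simp [eps, h2]
    rw [hHz, ENNReal.mul_div_cancel hu hu'] at h1
    have h3 : τ F G (u + v) ≤ F (u + v) := le_left hτ F G _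
    have h4 : F (u + v) ≤ 0 := by rw [← h1]; exact le_max_left _ _
    exact (h3.trans h4).trans (le_trans (F.nonneg _) (le_max_left _ _))
  -- the simple space on the real line
  have hmet : IsMetric (fun p q : ℝ => edist p q) :=
    ⟨fun p q => edist_eq_zero, fun p q => edist_comm p q, fun p q r => edist_triangle p q r⟩
  have htri := (hU ℝ (fun p q : ℝ => edist p q) H hmet h0 hi).triangle 0 u.toReal
    (u.toReal + v.toReal)
  have e1 : edist (0 : ℝ) u.toReal = u := by
    rw [edist_comm, edist_dist, Real.dist_eq, sub_zero, abs_of_nonneg ENNReal.toReal_nonneg,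
      ENNReal.ofReal_toReal hu']
  have e2 : edist u.toReal (u.toReal + v.toReal) = v := by
    rw [edist_comm, edist_dist, Real.dist_eq, add_sub_cancel_left,
      abs_of_nonneg ENNReal.toReal_nonneg, ENNReal.ofReal_toReal hv']
  have e3 : edist (0 : ℝ) (u.toReal + v.toReal) = u + v := by
    rw [edist_comm, edist_dist, Real.dist_eq, sub_zero,
      abs_of_nonneg (add_nonneg ENNReal.toReal_nonneg ENNReal.toReal_nonneg),
      ENNReal.ofReal_add ENNReal.toReal_nonneg ENNReal.toReal_nonneg,
      ENNReal.ofReal_toReal hu', ENNReal.ofReal_toReal hv']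
  simp only [simple, e1, e2, e3] at htri
  have hF : F ≤ scale H u := by
    intro y
    show F y ≤ if y = ∞ then 1 else H (y / u)
    split_ifs with hy
    · exact F.le_one _
    · rw [hHz, ENNReal.mul_div_cancel hu hu']
      exact le_max_left _ _
  have hG : G ≤ scale H v := by
    intro y
    show G y ≤ if y = ∞ then 1 else H (y / v)
    split_ifs with hy
    · exact G.le_one _
    · rw [hHz, ENNReal.mul_div_cancel hv hv']
      exact le_max_right _ _
  have h1 := (hτ.mono F (scale H u) G (scale H v) hF hG (u + v)).trans (htri (u + v))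
  have h2 : scale H (u + v) (u + v) = max (F u) (G v) := by
    show (if u + v = ∞ then 1 else H ((u + v) / (u + v))) = _
    rw [if_neg (ENNReal.add_ne_top.2 ⟨hu', hv'⟩), ENNReal.div_self (by simp [hu])
      (ENNReal.add_ne_top.2 ⟨hu', hv'⟩), hHz, mul_one, mul_one]
  rwa [h2] at h1

theorem exists_lt (F : DDF) {s : ℝ≥0∞} (hs0 : 0 < s) (hs : s < ∞) {m : ℝ} (hm : m < F s) :
    ∃ u, 0 < u ∧ u < s ∧ m < F u := by
  have h1 : ∀ᶠ u in 𝓝[Iic s] s, m < F u := (F.leftCont s hs0 hs).eventually (lt_mem_nhds hm)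
  have h2 : ∀ᶠ u in 𝓝[<] s, m < F u := h1.filter_mono (nhdsWithin_mono _ Iio_subset_Iic_self)
  have h3 : ∀ᶠ u in 𝓝[<] s, 0 < u := mem_nhdsWithin_of_mem_nhds (Ioi_mem_nhds hs0)
  have h4 : ∀ᶠ u in 𝓝[<] s, u < s := self_mem_nhdsWithin
  have : (𝓝[<] s).NeBot := nhdsLT_neBot_of_exists_lt ⟨0, hs0⟩
  obtain ⟨u, h5, h6, h7⟩ := (h2.and (h3.and h4)).exists
  exact ⟨u, h6, h7, h5⟩

theorem min_le_tauM (F G : DDF) {u v x : ℝ≥0∞} (h : u + v = x) : min (F u) (G v) ≤ tauM F G x := by
  refine le_csSup ⟨1, ?_⟩ ⟨u, v, h, rfl⟩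
  rintro y ⟨u, v, -, rfl⟩
  exact (min_le_left _ _).trans (F.le_one _)

/-- **`τ_M` is the strongest triangle function universal for simple spaces**: every triangle function
`τ` which is universal for the class of all simple spaces satisfies `τ ≤ τ_M`. -/
theorem result (τ : DDF → DDF → DDF) (hτ : IsTriangleFunction τ) (hU : Universal τ) (F G : DDF)
    (x : ℝ≥0∞) : τ F G x ≤ tauM F G x := by
  by_contra hcon
  push Not at hcon
  obtain ⟨m, hm⟩ : ∃ m, m = tauM F G x := ⟨_, rfl⟩
  obtain ⟨t, ht⟩ : ∃ t, t = τ F G x := ⟨_, rfl⟩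
  rw [← hm, ← ht] at hcon
  have hmin : ∀ u v, u + v = x → min (F u) (G v) ≤ m := fun u v h => by
    rw [hm]; exact min_le_tauM F G h
  have hm0 : 0 ≤ m := by
    have h1 := hmin x 0 (add_zero x)
    rw [G.zero, min_eq_right (F.nonneg _)] at h1
    exact h1
  -- `x` is positive and finite
  have hx0 : x ≠ 0 := by
    rintro rfl
    rw [ht, (τ F G).zero] at hcon
    exact absurd hcon (not_lt.2 hm0)
  have hx : x ≠ ∞ := by
    rintro rfl
    have h1 := hmin ∞ ∞ (by simp)
    rw [F.top, G.top, min_self] at h1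
    have h2 := (τ F G).le_one ∞
    rw [← ht] at h2
    linarith
  have hFx : m < F x := lt_of_lt_of_le (by rw [ht] at hcon; exact hcon) (le_left hτ F G x)
  have hGx : m < G x := by
    refine lt_of_lt_of_le (by rw [ht] at hcon; exact hcon) ?_
    rw [hτ.comm]
    exact le_left hτ G F x
  have hmax : ∀ u v, u ≠ 0 → v ≠ 0 → u + v = x → t ≤ max (F u) (G v) := by
    intro u v hu hv huv
    have h1 : u ≠ ∞ := fun h => hx (by rw [← huv, h, top_add])
    have h2 : v ≠ ∞ := fun h => hx (by rw [← huv, h, add_top])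
    rw [ht, ← huv]
    exact le_max hτ hU F G hu h1 hv h2
  -- the set of the `u` with `F u > m`
  have hdich : ∀ u v, u ≠ 0 → v ≠ 0 → u + v = x → m < F u → ¬ m < G v := by
    intro u v hu hv huv h1 h2
    exact absurd (hmin u v huv) (not_le.2 (lt_min h1 h2))
  have hdich' : ∀ u v, u ≠ 0 → v ≠ 0 → u + v = x → ¬ m < G v → m < F u := by
    intro u v hu hv huv h2
    rcases le_max_iff.1 (hmax u v hu hv huv) with h3 | h3
    · linarith
    · exact absurd (lt_of_lt_of_le hcon h3) h2
  obtain ⟨u1, hu10, hu1x, hu1⟩ := exists_lt F (pos_iff_ne_zero.2 hx0) hx.lt_top hFx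
  obtain ⟨v0, hv00, hv0x, hv0⟩ := exists_lt G (pos_iff_ne_zero.2 hx0) hx.lt_top hGx
  obtain ⟨P, hP⟩ : ∃ P : Set ℝ≥0∞, P = {u | m < F u} := ⟨_, rfl⟩
  obtain ⟨s, hs⟩ : ∃ s, s = sInf P := ⟨_, rfl⟩
  have hsu1 : s ≤ u1 := by rw [hs]; exact sInf_le (by rw [hP]; exact hu1)
  have hsx : s < x := lt_of_le_of_lt hsu1 hu1x
  have hspos : 0 < s := by
    have h1 : x - v0 ≤ s := by
      rw [hs]
      refine le_sInf fun u hu => ?_
      rw [hP] at hu
      by_contra hlt
      push Not at hlt
      -- `u < x - v0`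
      have hu0 : u ≠ 0 := by
        rintro rfl
        have h2 : m < F 0 := hu
        rw [F.zero] at h2
        exact absurd h2 (not_lt.2 hm0)
      have h2 : v0 ≤ x - u := by
        have h3 : u + v0 ≤ x := by
          have := lt_tsub_iff_right.1 hlt
          exact this.le
        exact ENNReal.le_sub_of_add_le_left (ne_top_of_le_ne_top hx (le_trans le_self_add h3)) h3
      have hux : u ≤ x := hlt.le.trans tsub_le_self
      have h4 : u + (x - u) = x := add_tsub_cancel_of_le hux
      exact hdich u (x - u) hu0 (ne_of_gt (lt_of_lt_of_le hv00 h2)) h4 hu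
        (lt_of_lt_of_le hv0 (G.mono h2))
    exact lt_of_lt_of_le (tsub_pos_of_lt hv0x) h1
  have hsx' : s + (x - s) = x := add_tsub_cancel_of_le hsx.le
  have hxs0 : 0 < x - s := tsub_pos_of_lt hsx
  by_cases hFs : m < F s
  · obtain ⟨u, -, hus, hu⟩ := exists_lt F hspos (hsx.trans hx.lt_top) hFs
    have h1 : s ≤ u := by rw [hs]; exact sInf_le (by rw [hP]; exact hu)
    exact absurd h1 (not_le.2 hus)
  · have hGs : m < G (x - s) := by
      by_contra hc
      exact hFs (hdich' s (x - s) hspos.ne' hxs0.ne' hsx' hc)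
    obtain ⟨v, hv0', hvs, hv⟩ := exists_lt G hxs0 (lt_of_le_of_lt tsub_le_self hx.lt_top) hGs
    have hvx : v < x := lt_of_lt_of_le hvs tsub_le_self
    have h1 : s < x - v := by
      have h2 : v + s < x := by
        have := lt_tsub_iff_right.1 hvs
        exact this
      rw [lt_tsub_iff_right, add_comm]
      exact h2
    obtain ⟨u, hu, hus⟩ := sInf_lt_iff.1 (by rw [← hs]; exact h1)
    rw [hP] at hu
    have h2 : m < F (x - v) := lt_of_lt_of_le hu (F.mono hus.le)
    have h3 : x - v + v = x := tsub_add_cancel_of_le hvx.le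
    exact hdich (x - v) v (tsub_pos_of_lt hvx).ne' hv0'.ne' h3 h2 hv

end Pool.Agent.Results.MP_6d1e65_an.StrongestTriangleFunction
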